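import Mathlib

set_option autoImplicit false

namespace Pool.Agent.Results.MP_28dfab_co.EightPoints

open Finset

variable {V : Type} [Fintype V] [DecidableEq V]

/-- `A 0, …, A (k-1)` are pairwise disjoint antichains. -/
def Family (r : V → V → Prop) (k : ℕ) (A : ℕ → Finset V) : Prop :=
  (∀ i < k, IsAntichain r (A i : Set V)) ∧ ∀ i < k, ∀ j < k, i ≠ j → Disjoint (A i) (A j)

/-- The largest size of a union of `k` pairwise disjoint antichains. -/
noncomputable def d (r : V → V → Prop) (k : ℕ) : ℕ :=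
  sSup {m | ∃ A, Family r k A ∧ #((range k).biUnion A) = m}

/-- The largest size of a chain. -/
noncomputable def height (r : V → V → Prop) : ℕ :=
  sSup {m | ∃ C : Finset V, IsChain r (C : Set V) ∧ #C = m}

def Decomposable (r : V → V → Prop) : Prop :=
  ∃ A, Family r (height r) A ∧ (range (height r)).biUnion A = univ ∧
    ∀ k, 1 ≤ k → k ≤ height r → #((range k).biUnion A) = d r k

/-- The order of `P₆`, with `x₁, x₂, x₃ = 0, 1, 2` and `y₁, y₂, y₃ = 3, 4, 5`. -/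
def P6 (a b : Fin 6) : Prop := a = b ∨ (a < 3 ∧ b = 4) ∨ (a = 1 ∧ 3 ≤ b)

def ContainsP6 (r : V → V → Prop) : Prop :=
  ∃ f : Fin 6 → V, Function.Injective f ∧ ∀ a b, r (f a) (f b) ↔ P6 a b

def Q (a b : Fin 8) : Prop :=
  a = b ∨ (a, b) ∈ [((0 : Fin 8), (4 : Fin 8)), (0, 5), (0, 6), (1, 6), (1, 7), (2, 7), (3, 7)]

instance : DecidableRel Q := fun _ _ => inferInstanceAs (Decidable (_ ∨ _))

instance : DecidableRel P6 := fun _ _ => inferInstanceAs (Decidable (_ ∨ _))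

theorem ac (S : Finset (Fin 8)) : IsAntichain Q (S : Set (Fin 8)) ↔
    ∀ a ∈ S, ∀ b ∈ S, a ≠ b → ¬ Q a b := Iff.rfl

theorem ch (S : Finset (Fin 8)) : IsChain Q (S : Set (Fin 8)) ↔
    ∀ a ∈ S, ∀ b ∈ S, a ≠ b → Q a b ∨ Q b a := Iff.rfl

theorem height_Q : height Q = 2 := by
  refine IsGreatest.csSup_eq ⟨⟨{0, 4}, (ch _).2 (by decide), rfl⟩, ?_⟩
  rintro m ⟨C, hC, rfl⟩
  rw [ch] at hC
  revert C
  decide +kernel

theorem d_Q : 5 ≤ d Q 1 := by
  refine le_csSup ⟨8, ?_⟩ ⟨fun _ => {2, 3, 4, 5, 6}, ⟨fun _ _ => (ac {2, 3, 4, 5, 6}).2 (by decide),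
    fun i _ j _ h => absurd (by omega) h⟩, rfl⟩
  rintro m ⟨A, -, rfl⟩
  exact card_le_univ _

theorem result : ¬ ∀ (V : Type) [Fintype V] [DecidableEq V] (r : V → V → Prop),
    IsPartialOrder V r → ¬ ContainsP6 r → Decomposable r := by
  intro h
  obtain ⟨A, hA, hu, hk⟩ := h (Fin 8) Q
    { refl := by decide, trans := by decide +kernel, antisymm := by decide +kernel } (by
      rintro ⟨f, hi, hf⟩
      have k1 : ∀ a b c e, b ≠ c ∧ b ≠ e ∧ c ≠ e ∧ a ≠ b ∧ a ≠ c ∧ a ≠ e ∧ Q a b ∧ Q a c ∧ Q a e →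
        a = 0 := by decide +kernel
      have k2 : ∀ a b c e, b ≠ c ∧ b ≠ e ∧ c ≠ e ∧ a ≠ b ∧ a ≠ c ∧ a ≠ e ∧ Q b a ∧ Q c a ∧ Q e a →
        a = 7 := by decide +kernel
      have e1 := k1 (f 1) (f 3) (f 4) (f 5) (by simp only [hi.ne_iff, hf]; decide)
      have e2 := k2 (f 4) (f 0) (f 1) (f 2) (by simp only [hi.ne_iff, hf]; decide)
      have := (hf 1 4).2 (by decide)
      rw [e1, e2] at this
      exact absurd this (by decide))
  rw [height_Q] at hA hu hk
  have h1 : 5 ≤ #(A 0) := by simpa [← hk 1 le_rfl (by norm_num)] using d_Q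
  have h2 : (A 0)ᶜ ⊆ A 1 := fun x hx => by
    have : x ∈ (range 2).biUnion A := hu ▸ mem_univ x
    obtain ⟨i, hi, hx'⟩ := mem_biUnion.1 this
    obtain rfl | rfl : i = 0 ∨ i = 1 := by have := mem_range.1 hi; omega
    · exact absurd hx' (mem_compl.1 hx)
    · exact hx'
  have h3 := (ac _).1 ((hA.1 1 (by norm_num)).subset (coe_subset.2 h2))
  have h4 := (ac _).1 (hA.1 0 (by norm_num))
  revert h1 h3 h4
  generalize A 0 = S
  revert S
  decide +kernel

end Pool.Agent.Results.MP_28dfab_co.EightPoints
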